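import Pool.Agent.H664.EX.Stm
import Pool.Graph.R_seed8.W602.GT.Der

/-!
# JOB DER of project EX: the derivation along the slices
-/

set_option autoImplicit false

namespace Pool.Agent.H591.EX

open Pool.Agent.H664.EX

/-- monotonicity of algebraicity -/
theorem al_mono {E : Type} [Field E] [Algebra ℂ E] {A B : Set E} (h : A ⊆ B) {f : E}
    (hf : Al A f) : Al B f := by
  have hle : IntermediateField.adjoin ℂ A ≤ IntermediateField.adjoin ℂ B :=
    IntermediateField.adjoin.mono ℂ A B h
  let _ : Algebra (IntermediateField.adjoin ℂ A) (IntermediateField.adjoin ℂ B) :=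
    (IntermediateField.inclusion hle).toRingHom.toAlgebra
  have : IsScalarTower (IntermediateField.adjoin ℂ A) (IntermediateField.adjoin ℂ B) E :=
    IsScalarTower.of_algebraMap_eq fun x => rfl
  exact IsAlgebraic.extendScalars (R := IntermediateField.adjoin ℂ A)
    (IntermediateField.inclusion hle).toRingHom.injective hf

/-- `z, t` form a transcendence basis -/
theorem basis {K : Type} [Field K] [Algebra ℂ K] {z t : K}
    (hind : AlgebraicIndependent ℂ ![z, t]) (halg : ∀ f : K, Al {z, t} f) :
    IsTranscendenceBasis ℂ ![z, t] := by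
  rw [hind.isTranscendenceBasis_iff_isAlgebraic]
  refine ⟨fun f => ?_⟩
  rw [← IntermediateField.isAlgebraic_adjoin_iff]
  have hr : Set.range ![z, t] = {z, t} := by
    simp [Set.pair_comm]
  rw [hr]
  exact halg f

/-- **JOB DER** -/
theorem der (h : S_axK) : S_der := by
  classical
  intro K _ _ z t y hind halg hy
  have hchar : CharZero K := charZero_of_injective_algebraMap (algebraMap ℂ K).injective
  have hb := basis hind halg
  obtain ⟨D₁, hD₁⟩ := Pool.Agent.W602.GT.exists_der ![z, t] hb ![1, 0]
  obtain ⟨D₂, hD₂⟩ := Pool.Agent.W602.GT.exists_der ![z, t] hb ![0, 1]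
  have h1z : D₁ z = 1 := by simpa using hD₁ 0
  have h1t : D₁ t = 0 := by simpa using hD₁ 1
  have h2z : D₂ z = 0 := by simpa using hD₂ 0
  have h2t : D₂ t = 1 := by simpa using hD₂ 1
  have hne : D₁ y ≠ y := by
    intro he
    have h3 := h K {z, t} D₁ 1 1 ![z] ![y] ![z] (by simpa using halg) one_pos
      (by intro i; fin_cases i; simpa using hy)
      (by intro i; fin_cases i; simp [he, h1z])
      (by
        intro q hq
        funext i
        fin_cases i
        simpa [h1z] using hq)
      (by
        intro f
        refine al_mono ?_ (halg f)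
        intro x hx
        rcases hx with rfl | rfl
        · right
          exact ⟨0, by simp⟩
        · left
          exact h1t)
    omega
  have hsub : y - D₁ y ≠ 0 := sub_ne_zero.2 (Ne.symm hne)
  refine ⟨(D₂ y / (y - D₁ y)) • D₁ + D₂, ?_, ?_⟩
  · simp [h1t, h2t]
  · simp only [Derivation.add_apply, Derivation.smul_apply, smul_eq_mul, h1z, h2z]
    field_simp
    ring

end Pool.Agent.H591.EX
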